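import Mathlib
import Pool.Agent.Lib.helper21.Queue
import Pool.Agent.Lib.helper21.PR
import Pool.Agent.Lib.helper21.Dfa
import Pool.Agent.Lib.helper22.Munn

set_option autoImplicit false

namespace Pool.Agent.H.MP_020f70_lc

open Relation List Pool.Agent.Lib.helper21 Pool.Agent.Lib.helper21.Queue Pool.Agent.Lib.helper21.PR

def Stp {V : Type} (P : List V → List V → Prop) (s t : List V) : Prop :=
  ∃ x y, P x y ∧ ∃ u v, s = u ++ x ++ v ∧ t = u ++ y ++ v

def pre (P : List (List ℕ × List ℕ)) (t : List ℕ) : List (List ℕ) :=
  P.flatMap fun r => ((range (t.length + 1)).filter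
    (fun i => decide ((t.drop i).take r.2.length = r.2))).map
      fun i => t.take i ++ r.1 ++ t.drop (i + r.2.length)

theorem mem_pre (P : List (List ℕ × List ℕ)) (s t : List ℕ) :
    s ∈ pre P t ↔ Stp (fun x y => (x, y) ∈ P) s t := by
  simp only [pre, mem_flatMap, mem_map, mem_filter, mem_range, decide_eq_true_eq, Stp]
  constructor
  · rintro ⟨r, hr, i, ⟨-, h⟩, rfl⟩
    refine ⟨r.1, r.2, hr, _, _, rfl, ?_⟩
    conv_lhs => rw [← take_append_drop i t, ← take_append_drop r.2.length (drop i t), h]
    simp
  · rintro ⟨x, y, hr, u, v, rfl, rfl⟩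
    exact ⟨(x, y), hr, u.length, ⟨by simp, by simp⟩, by simp⟩

theorem pr_pre (P : List (List ℕ × List ℕ)) : Primrec (pre P) := by
  unfold pre; fun_prop

theorem dec_mono (P : List (List ℕ × List ℕ)) (hP : ∀ r ∈ P, r.1.length ≤ r.2.length)
    (s : List ℕ) : ComputablePred fun w => ReflTransGen (Stp fun x y => (x, y) ∈ P) s w := by
  classical
  have hp := pr_pre P
  refine Dfa.dec_of_two (P := fun w (n : ℕ) => s ∈ (fun X => X.flatMap (pre P))^[n] [w])
    (N := fun w (X : List (List ℕ)) => w ∈ X ∧ ¬ s ∈ X ∧ ∀ x ∈ X, ∀ y ∈ pre P x, y ∈ X)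
    (pred (by fun_prop)) (pred (by fun_prop)) (fun w => ?_) (fun w => ?_)
  · constructor
    · intro h
      induction h using ReflTransGen.head_induction_on with
      | refl => exact ⟨0, by simp⟩
      | head h _ ih =>
        obtain ⟨n, hn⟩ := ih
        exact ⟨n + 1, by
          rw [Function.iterate_succ_apply']
          exact mem_flatMap.2 ⟨_, hn, (mem_pre ..).2 h⟩⟩
    · rintro ⟨n, hn⟩
      induction n generalizing s with
      | zero => simp at hn; subst hn; exact .refl
      | succ n ih =>
        rw [Function.iterate_succ_apply'] at hn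
        obtain ⟨x, hx, h⟩ := mem_flatMap.1 hn
        exact .head ((mem_pre ..).1 h) (ih _ hx)
  · constructor
    · intro h
      have key : ∀ y, ReflTransGen (Stp fun x y => (x, y) ∈ P) y w →
          y.length ≤ w.length ∧ ∀ a ∈ y, a ∈ w ++ P.flatMap Prod.fst := by
        intro y hy
        induction hy using ReflTransGen.head_induction_on with
        | refl => exact ⟨le_rfl, fun a ha => mem_append_left _ ha⟩
        | head h _ ih =>
          obtain ⟨x, y, hr, u, v, rfl, rfl⟩ := h
          have := hP _ hr
          refine ⟨by have := ih.1; simp at *; omega, fun a ha => ?_⟩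
          simp only [mem_append] at ha
          rcases ha with (ha | ha) | ha
          · exact ih.2 a (by simp [ha])
          · exact mem_append_right _ (mem_flatMap.2 ⟨_, hr, ha⟩)
          · exact ih.2 a (by simp [ha])
      refine ⟨(Pool.Agent.Lib.Munn.allW (w ++ P.flatMap Prod.fst) w.length).filter
        fun y => decide (ReflTransGen (Stp fun x y => (x, y) ∈ P) y w), ?_, ?_, ?_⟩
      · exact mem_filter.2 ⟨Pool.Agent.Lib.Munn.mem_allW.2 (key _ .refl), by
          simpa using ReflTransGen.refl⟩
      · intro h'; exact h (by simpa using (mem_filter.1 h').2)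
      · intro x hx y hy
        have : ReflTransGen (Stp fun x y => (x, y) ∈ P) y w :=
          .head ((mem_pre ..).1 hy) (by simpa using (mem_filter.1 hx).2)
        exact mem_filter.2 ⟨Pool.Agent.Lib.Munn.mem_allW.2 (key _ this), by simpa using this⟩
    · rintro ⟨X, h1, h2, h3⟩ h
      apply h2
      clear h2
      induction h using ReflTransGen.head_induction_on with
      | refl => exact h1
      | head h _ ih => exact h3 _ ih _ ((mem_pre ..).2 h)

end Pool.Agent.H.MP_020f70_lc
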