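import Mathlib
import Pool.Agent.H.MP_020f70_lc.A

set_option autoImplicit false

namespace Pool.Agent.H.MP_020f70_lc

open Relation List Pool.Agent.Lib.helper21 Pool.Agent.Lib.helper21.Queue Pool.Agent.Lib.helper21.PR

inductive Sy (Q S : Type) | st | B | b | h | L | R | a (x : S) | hd (o : Option Q) (m : Bool)

open Sy

variable {Q S : Type}

instance [Finite Q] [Finite S] : Finite (Sy Q S) :=
  Finite.of_surjective (fun z : Fin 6 ⊕ S ⊕ Option Q × Bool => match z with
    | .inl i => ![st, B, b, h, L, R] i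
    | .inr (.inl x) => a x
    | .inr (.inr p) => hd p.1 p.2) (by
      rintro (_ | _ | _ | _ | _ | _ | x | ⟨o, m⟩)
      exacts [⟨.inl 0, rfl⟩, ⟨.inl 1, rfl⟩, ⟨.inl 2, rfl⟩, ⟨.inl 3, rfl⟩, ⟨.inl 4, rfl⟩,
        ⟨.inl 5, rfl⟩, ⟨.inr (.inl x), rfl⟩, ⟨.inr (.inr (o, m)), rfl⟩])

def Tm : Sy Q S → Prop
  | st => False | B => False | hd _ _ => False | _ => True

variable (δ : Q → S → Option Q × List S) (q₀ : Q)

inductive Ru : List (Sy Q S) → List (Sy Q S) → Prop
  | start : Ru [st] [L, hd none false, R]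
  | swap (y) : Ru [y, B] [B, y]
  | sim (q x) : Ru ((δ q x).2.map a ++ [hd (δ q x).1 false])
      (replicate (δ q x).2.length B ++ [hd (some q) false, a x])
  | turn (o) : Ru [L, hd o false] [L, hd o true]
  | mv (o x) : Ru [hd o true, a x] [a x, hd o true]
  | back (o) : Ru [hd o true, R] [hd o false, R]
  | tB : Ru [B] [b]
  | tH : Ru [hd (some q₀) false] [h]

theorem ru_fin [Finite Q] [Finite S] : {p : List (Sy Q S) × List (Sy Q S) | Ru δ q₀ p.1 p.2}.Finite := by
  refine (Set.finite_range (fun z : (Sy Q S ⊕ Q × S) ⊕ (Option Q ⊕ Option Q × S) ⊕ Option Q ⊕ Fin 3 =>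
    (match z with
    | .inl (.inl y) => ([y, B], [B, y])
    | .inl (.inr (q, x)) => ((δ q x).2.map a ++ [hd (δ q x).1 false],
        replicate (δ q x).2.length B ++ [hd (some q) false, a x])
    | .inr (.inl (.inl o)) => ([L, hd o false], [L, hd o true])
    | .inr (.inl (.inr (o, x))) => ([hd o true, a x], [a x, hd o true])
    | .inr (.inr (.inl o)) => ([hd o true, R], [hd o false, R])
    | .inr (.inr (.inr i)) => ![([st], [L, hd none false, R]), ([B], [b]),
        ([hd (some q₀) false], [h])] i : List (Sy Q S) × List (Sy Q S)))).subset ?_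
  rintro ⟨x, y⟩ hp
  cases hp with
  | start => exact ⟨.inr (.inr (.inr 0)), rfl⟩
  | swap y => exact ⟨.inl (.inl y), rfl⟩
  | sim q x => exact ⟨.inl (.inr (q, x)), rfl⟩
  | turn o => exact ⟨.inr (.inl (.inl o)), rfl⟩
  | mv o x => exact ⟨.inr (.inl (.inr (o, x))), rfl⟩
  | back o => exact ⟨.inr (.inr (.inl o)), rfl⟩
  | tB => exact ⟨.inr (.inr (.inr 1)), rfl⟩
  | tH => exact ⟨.inr (.inr (.inr 2)), rfl⟩

theorem ru_len {x y} (hr : Ru δ q₀ x y) : x.length ≤ y.length ∧ ∃ z ∈ x, ¬ Tm z := by
  cases hr <;> simp [Tm]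

def ph : Sy Q S → Option (Sy Q S)
  | B => none | b => none | h => some (hd (some q₀) false) | y => some y

section
variable (x : S) (o : Option Q) (m : Bool)
@[simp] theorem ph1 : ph (S := S) q₀ B = none := rfl
@[simp] theorem ph2 : ph (S := S) q₀ b = none := rfl
@[simp] theorem ph3 : ph (S := S) q₀ h = some (hd (some q₀) false) := rfl
@[simp] theorem ph4 : ph (S := S) q₀ st = some st := rfl
@[simp] theorem ph5 : ph (S := S) q₀ L = some L := rfl
@[simp] theorem ph6 : ph (S := S) q₀ R = some R := rfl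
@[simp] theorem ph7 : ph q₀ (a x) = some (a x) := rfl
@[simp] theorem ph8 : ph (S := S) q₀ (hd o m) = some (hd o m) := rfl
end

theorem ph_a (l : List S) : (l.map a).filterMap (ph q₀) = l.map a := by
  induction l <;> simp [-filterMap_map, *]

theorem ph_B (n : ℕ) : (replicate n B).filterMap (ph (S := S) q₀) = [] := by
  induction n <;> simp [*]

theorem spl {A C : List (Sy Q S)} {o o' m m'} {l r : List S}
    (e : A ++ hd o m :: C = L :: l.map a ++ hd o' m' :: r.map a ++ [R]) :
    A = L :: l.map a ∧ o = o' ∧ m = m' ∧ C = r.map a ++ [R] := by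
  rw [append_assoc] at e
  rcases append_eq_append_iff.1 e with ⟨u, h1, h2⟩ | ⟨u, h1, h2⟩
  · rcases u with _ | ⟨z, u⟩
    · simp at h1 h2; simp [h1, h2]
    · have : hd o m ∈ L :: l.map a := by rw [h1]; simp at h2; simp [h2.1]
      simp at this
  · rcases u with _ | ⟨z, u⟩
    · simp at h1 h2; simp [h1, h2]
    · have : hd o m ∈ r.map a ++ [R] := by
        simp only [cons_append, cons.injEq] at h2; rw [h2.2]; simp
      simp at this

def Iv (s : List (Sy Q S)) : Prop := s = [st] ∨ ∃ l o m r,
  s.filterMap (ph q₀) = L :: map a l ++ hd o m :: map a r ++ [R] ∧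
    Reach δ (o, bif m then l ++ r else r ++ l) (none, [])

theorem a_inj : Function.Injective (a : S → Sy Q S) := fun _ _ e => by cases e; rfl

theorem iv_step {s t} (hs : Iv δ q₀ s) (h : Stp (Ru δ q₀) s t) : Iv δ q₀ t := by
  obtain ⟨x, y, hr, u, v, rfl, rfl⟩ := h
  right
  rcases hs with e | ⟨l, o, m, r, e, hR⟩
  · have hx : ∀ z ∈ x, z = st := fun z hz => by
      have : z ∈ u ++ x ++ v := by simp [hz]
      rw [e] at this; simpa using this
    have hl := congrArg length e
    cases hr with
    | start =>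
      simp at hl
      obtain rfl : u = [] := length_eq_zero_iff.1 (by omega)
      obtain rfl : v = [] := length_eq_zero_iff.1 (by omega)
      exact ⟨[], none, false, [], rfl, .refl⟩
    | sim q x => simpa using hx (hd (δ q x).1 false)
    | _ => simp at hx
  · cases hr with
    | start =>
      have : st ∈ (u ++ [st] ++ v).filterMap (ph q₀) := mem_filterMap.2 ⟨st, by simp, rfl⟩
      rw [e] at this; simp at this
    | swap y =>
      refine ⟨l, o, m, r, ?_, hR⟩
      rw [← e]; cases y <;> simp
    | tB => exact ⟨l, o, m, r, by rw [← e]; simp, hR⟩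
    | tH => exact ⟨l, o, m, r, by rw [← e]; simp, hR⟩
    | sim q x =>
      have e' : (u.filterMap (ph q₀) ++ (δ q x).2.map a) ++ hd (δ q x).1 false :: v.filterMap (ph q₀) =
          L :: map a l ++ hd o m :: map a r ++ [R] := by
        rw [← e]; simp [-filterMap_map, ph_a]
      obtain ⟨h1, rfl, rfl, h2⟩ := spl e'
      rcases hu : u.filterMap (ph q₀) with _ | ⟨z, U⟩
      · have : L ∈ (δ q x).2.map (a : S → Sy Q S) := by rw [hu] at h1; simp only [nil_append] at h1; rw [h1]; simp
        simp at this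
      rw [hu] at h1
      simp only [cons_append, cons.injEq] at h1
      obtain ⟨l1, l2, rfl, rfl, h3⟩ := map_eq_append_iff.1 h1.2.symm
      obtain rfl := (map_injective_iff.2 a_inj) h3
      refine ⟨l1, some q, false, x :: r, by simp [-filterMap_map, hu, h1.1, h2], .head ?_ hR⟩
      simp [qstep]
    | turn o' =>
      have e' : (u.filterMap (ph q₀) ++ [L]) ++ hd o' false :: v.filterMap (ph q₀) =
          L :: map a l ++ hd o m :: map a r ++ [R] := by
        rw [← e]; simp
      obtain ⟨h1, rfl, rfl, h2⟩ := spl e'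
      rcases hu : u.filterMap (ph q₀) with _ | ⟨z, U⟩
      · rw [hu] at h1
        obtain rfl : l = [] := by simpa using h1
        exact ⟨[], o', true, r, by simp [-filterMap_map, hu, h2], by simpa using hR⟩
      · rw [hu] at h1
        simp only [cons_append, cons.injEq] at h1
        have : L ∈ l.map (a : S → Sy Q S) := by rw [← h1.2]; simp
        simp at this
    | mv o' x =>
      have e' : u.filterMap (ph q₀) ++ hd o' true :: (a x :: v.filterMap (ph q₀)) =
          L :: map a l ++ hd o m :: map a r ++ [R] := by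
        rw [← e]; simp
      obtain ⟨h1, rfl, rfl, h2⟩ := spl e'
      rcases r with _ | ⟨y, r⟩
      · simp at h2
      simp only [map_cons, cons_append, cons.injEq, a.injEq] at h2
      obtain ⟨rfl, h2⟩ := h2
      exact ⟨l ++ [x], o', true, r, by simp [-filterMap_map, h1, h2], by simpa using hR⟩
    | back o' =>
      have e' : u.filterMap (ph q₀) ++ hd o' true :: (R :: v.filterMap (ph q₀)) =
          L :: map a l ++ hd o m :: map a r ++ [R] := by
        rw [← e]; simp
      obtain ⟨h1, rfl, rfl, h2⟩ := spl e'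
      rcases r with _ | ⟨y, r⟩
      · exact ⟨l, o', false, [], by simp at h2; simpa [-filterMap_map, h1] using h2, by simpa using hR⟩
      · simp at h2

abbrev Gen (s : List (Sy Q S)) : Prop := ReflTransGen (Stp (Ru δ q₀)) [st] s

variable {δ q₀}

theorem Gen.ru {x y} (hr : Ru δ q₀ x y) {u v} (h : Gen δ q₀ (u ++ x ++ v)) : Gen δ q₀ (u ++ y ++ v) :=
  .tail h ⟨x, y, hr, u, v, rfl, rfl⟩

theorem mvB (y : List (Sy Q S)) : ∀ u v, Gen δ q₀ (u ++ y ++ B :: v) → Gen δ q₀ (u ++ B :: y ++ v) := by
  induction y with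
  | nil => intro u v h; simpa using h
  | cons z y ih =>
    intro u v h
    have := ih (u ++ [z]) v (by simpa using h)
    simpa using Gen.ru (.swap z) (u := u) (v := y ++ v) (by simpa using this)

theorem mvBs (y : List (Sy Q S)) (j : ℕ) : ∀ u v, Gen δ q₀ (u ++ y ++ replicate j B ++ v) →
    Gen δ q₀ (u ++ replicate j B ++ y ++ v) := by
  induction j with
  | zero => intro u v h; simpa using h
  | succ j ih =>
    intro u v h
    have := mvB y u (replicate j B ++ v) (by simpa [replicate_succ] using h)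
    have h2 := ih (u ++ [B]) v (by simpa using this)
    rw [append_assoc u [B]] at h2
    simpa [replicate_succ] using h2

theorem mvH (o) (r : List S) : ∀ u v, Gen δ q₀ (u ++ hd o true :: r.map a ++ v) →
    Gen δ q₀ (u ++ r.map a ++ hd o true :: v) := by
  induction r with
  | nil => intro u v h; simpa using h
  | cons z r ih =>
    intro u v h
    have := Gen.ru (.mv o z) (u := u) (v := r.map a ++ v) (by simpa using h)
    have h2 := ih (u ++ [a z]) v (by simpa using this)
    rw [append_assoc u [a z]] at h2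
    simpa using h2

theorem compl {c} (hc : Reach δ c (none, [])) : ∀ l r, c.2 = r ++ l →
    ∃ m, Gen δ q₀ (replicate m B ++ L :: map a l ++ hd c.1 false :: map a r ++ [R]) := by
  induction hc using ReflTransGen.head_induction_on with
  | refl =>
    intro l r e
    obtain ⟨rfl, rfl⟩ := append_eq_nil_iff.1 e.symm
    exact ⟨0, Gen.ru .start (u := []) (v := []) .refl⟩
  | @head c c' h _ ih =>
    obtain ⟨_ | q, _ | ⟨x, t⟩⟩ := c <;> simp only [qstep, reduceCtorEq, Option.some.injEq] at h
    subst h
    have k : ∀ l r, t = r ++ l → ∃ m, Gen δ q₀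
        (replicate m B ++ L :: map a l ++ hd (some q) false :: map a (x :: r) ++ [R]) := by
      rintro l r rfl
      obtain ⟨m, hm⟩ := ih (l ++ (δ q x).2) r (by simp)
      have h1 := Gen.ru (.sim q x) (u := replicate m B ++ L :: map a l) (v := map a r ++ [R])
        (by simpa using hm)
      have h2 := mvBs (L :: map a l) (δ q x).2.length (replicate m B)
        (hd (some q) false :: a x :: map a r ++ [R]) (by simpa using h1)
      exact ⟨m + (δ q x).2.length, by rw [replicate_add]; simpa only [append_assoc, cons_append, map_cons] using h2⟩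
    rintro l (_ | ⟨y, r⟩) e
    · simp only [nil_append] at e
      subst e
      obtain ⟨m, hm⟩ := k [] t (by simp)
      have h1 := Gen.ru (.turn (some q)) (u := replicate m B) (v := map a (x :: t) ++ [R])
        (by simpa using hm)
      have h2 := mvH (some q) (x :: t) (replicate m B ++ [L]) [R] (by simpa using h1)
      have h3 := Gen.ru (.back (some q)) (u := replicate m B ++ L :: map a (x :: t)) (v := [])
        (by simpa using h2)
      exact ⟨m, by simpa using h3⟩
    · simp only [cons_append, cons.injEq] at e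
      obtain ⟨rfl, e⟩ := e
      exact k l r e

theorem termB (m : ℕ) : ∀ u v, Gen δ q₀ (u ++ replicate m B ++ v) → Gen δ q₀ (u ++ replicate m b ++ v) := by
  induction m with
  | zero => intro u v h; simpa using h
  | succ m ih =>
    intro u v h
    have := Gen.ru .tB (u := u) (v := replicate m B ++ v) (by simpa [replicate_succ] using h)
    have h2 := ih (u ++ [b]) v (by simpa using this)
    rw [append_assoc u [b]] at h2
    simpa [replicate_succ] using h2

open Classical in
theorem main (r : List S) : (∃ w, (∀ z ∈ w, Tm z) ∧ Gen δ q₀ w ∧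
    w.filter (fun z => decide (z ≠ b)) = L :: h :: map a r ++ [R]) ↔ Reach δ (some q₀, r) (none, []) := by
  constructor
  · rintro ⟨w, h1, h2, h3⟩
    have hi : Iv δ q₀ w := by
      clear h1 h3
      induction h2 with
      | refl => exact .inl rfl
      | tail _ h ih => exact iv_step δ q₀ ih h
    have e : w.filterMap (ph q₀) = (w.filter (fun z => decide (z ≠ b))).filterMap (ph q₀) := by
      clear hi h1 h2 h3
      induction w with
      | nil => rfl
      | cons z w ih => cases z <;> simpa using ih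
    rcases hi with rfl | ⟨l, o, m, r', e1, hR⟩
    · exact (h1 st (by simp)).elim
    have e' : [L] ++ hd (some q₀) false :: (map a r ++ [R]) = L :: map a l ++ hd o m :: map a r' ++ [R] := by
      rw [← e1, e, h3]; simp [-filterMap_map, ph_a]
    obtain ⟨k1, rfl, rfl, k2⟩ := spl e'
    obtain rfl : l = [] := by simpa using k1
    obtain rfl := (map_injective_iff.2 a_inj) (append_cancel_right k2)
    simpa using hR
  · intro hR
    obtain ⟨m, hm⟩ := compl (q₀ := q₀) hR [] r (by simp)
    have h1 := Gen.ru .tH (u := replicate m B ++ [L]) (v := map a r ++ [R]) (by simpa using hm)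
    have h2 := termB m [] (L :: h :: map a r ++ [R]) (by simpa using h1)
    refine ⟨_, ?_, h2, ?_⟩
    · intro z hz
      simp only [nil_append, cons_append, mem_append, mem_replicate, mem_cons, mem_map,
        not_mem_nil, or_false] at hz
      rcases hz with ⟨-, rfl⟩ | rfl | rfl | ⟨_, -, rfl⟩ | rfl <;> trivial
    · simp [filter_map, Function.comp_def]

theorem lift {V : Type} (e : V → ℕ) (he : Function.Injective e) (P : List V → List V → Prop)
    (s : List V) (t : List ℕ) :
    ReflTransGen (Stp fun x y => ∃ x' y', P x' y' ∧ x = x'.map e ∧ y = y'.map e) (s.map e) t ↔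
      ∃ t', t = t'.map e ∧ ReflTransGen (Stp P) s t' := by
  constructor
  · intro h
    induction h with
    | refl => exact ⟨s, rfl, .refl⟩
    | tail _ h ih =>
      obtain ⟨t', rfl, ih⟩ := ih
      obtain ⟨_, _, ⟨x, y, hr, rfl, rfl⟩, u, v, e1, rfl⟩ := h
      obtain ⟨w, v', rfl, e2, rfl⟩ := map_eq_append_iff.1 e1
      obtain ⟨u', x', rfl, rfl, e3⟩ := map_eq_append_iff.1 e2
      obtain rfl := (map_injective_iff.2 he) e3
      exact ⟨u' ++ y ++ v', by simp, ih.tail ⟨_, _, hr, u', v', rfl, rfl⟩⟩
  · rintro ⟨t', rfl, h⟩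
    induction h with
    | refl => exact .refl
    | tail _ h ih =>
      obtain ⟨x, y, hr, u, v, rfl, rfl⟩ := h
      exact ih.tail ⟨_, _, ⟨x, y, hr, rfl, rfl⟩, u.map e, v.map e, by simp, by simp⟩

theorem exists_gr : ∃ (V T : Finset ℕ) (P : Finset (List ℕ × List ℕ)) (s c : ℕ) (W : ℕ → List ℕ),
    T ⊆ V ∧ s ∈ V \ T ∧ (∀ r ∈ P, (∀ z ∈ r.1, z ∈ V) ∧ (∀ z ∈ r.2, z ∈ V) ∧ (∃ z ∈ r.1, z ∈ V \ T) ∧
      r.1.length ≤ r.2.length) ∧ Primrec W ∧ (∀ n, W n ≠ []) ∧
    ¬ ComputablePred fun n => ∃ w, ((∀ z ∈ w, z ∈ T) ∧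
      ReflTransGen (Stp fun x y => (x, y) ∈ P) [s] w) ∧ w.filter (fun z => decide (z ≠ c)) = W n := by
  classical
  obtain ⟨Q, S, _, _, δ, q₀, x₀, y₀, -, hU⟩ := exists_qa
  obtain ⟨e, he⟩ := exists_injective_nat (Sy Q S)
  have := Fintype.ofFinite (Sy Q S)
  have hT : ∀ z, e z ∈ (Finset.univ.filter Tm).image e ↔ Tm z := fun z => by simp [he.eq_iff]
  refine ⟨Finset.univ.image e, (Finset.univ.filter Tm).image e,
    (ru_fin δ q₀).toFinset.image fun p => (p.1.map e, p.2.map e), e st, e b,
    fun n => e L :: e h :: (replicate n (e (a x₀)) ++ [e (a y₀)]) ++ [e R],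
    Finset.image_subset_image (Finset.filter_subset _ _), ?_, ?_, by fun_prop, by simp, ?_⟩
  · exact Finset.mem_sdiff.2 ⟨by simp, fun h => (hT _).1 h⟩
  · intro r hr
    obtain ⟨p, hp, rfl⟩ := Finset.mem_image.1 hr
    obtain ⟨h1, z, h2, h3⟩ := ru_len δ q₀ (x := p.1) (y := p.2) (by simpa using hp)
    refine ⟨by simp, by simp, ⟨e z, mem_map_of_mem h2, Finset.mem_sdiff.2
      ⟨by simp, fun h => h3 ((hT _).1 h)⟩⟩, by simpa using h1⟩
  · refine fun hc => hU (hc.of_eq fun n => ?_)
    rw [← main (q₀ := q₀)]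
    have hP : (fun x y => (x, y) ∈ (ru_fin δ q₀).toFinset.image
        fun p : List (Sy Q S) × List (Sy Q S) => (p.1.map e, p.2.map e)) =
        fun x y => ∃ x' y', Ru δ q₀ x' y' ∧ x = x'.map e ∧ y = y'.map e := by
      funext x y; simp [eq_comm]
    have hF : ∀ w : List (Sy Q S), (w.map e).filter (fun z => decide (z ≠ e b)) =
        (w.filter fun z => decide (z ≠ b)).map e := fun w => by
      simp [filter_map, Function.comp_def, he.eq_iff]
    have hW : e L :: e h :: (replicate n (e (a x₀)) ++ [e (a y₀)]) ++ [e R] =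
        (L :: h :: map a (replicate n x₀ ++ [y₀]) ++ [R]).map e := by simp
    beta_reduce
    rw [hP, hW]
    constructor
    · rintro ⟨w, ⟨h1, h2⟩, h3⟩
      obtain ⟨t, rfl, ht⟩ := (lift e he _ [st] w).1 h2
      rw [hF] at h3
      exact ⟨t, fun z hz => (hT _).1 (h1 _ (mem_map_of_mem hz)), ht,
        by convert (map_injective_iff.2 he) h3⟩
    · rintro ⟨t, h1, h2, h3⟩
      refine ⟨t.map e, ⟨?_, (lift e he _ [st] _).2 ⟨t, rfl, h2⟩⟩, ?_⟩
      · intro z hz
        obtain ⟨y, hy, rfl⟩ := mem_map.1 hz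
        exact (hT _).2 (h1 _ hy)
      · rw [hF, ← h3]

end Pool.Agent.H.MP_020f70_lc
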